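import Pool.Agent.W785.QR.Stm

/-!
QR-LIN: time-localised narrow solutions of the heat equation
-/

set_option autoImplicit false

namespace Pool.Agent.W688.QR.Lin

open Pool.Agent.W785.QR Finset

lemma sum_ext (D D' : ℕ) (h : D ≤ D') (q F : ℕ → ℂ) :
    ∑ m ∈ Icc 1 D', (if m ≤ D then q m else 0) * F m = ∑ m ∈ Icc 1 D, q m * F m := by
  symm
  apply Finset.sum_subset_zero_on_sdiff (Icc_subset_Icc le_rfl h)
  · intro m hm
    simp only [mem_sdiff, mem_Icc] at hm
    have : ¬ m ≤ D := by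
      intro h1; exact hm.2 ⟨hm.1.1, h1⟩
    rw [if_neg this, zero_mul]
  · intro m hm
    rw [if_pos (mem_Icc.1 hm).2]

lemma sum_sq (nn D : ℕ) (hD : (2 * nn + 1) ^ 2 ≤ D) (w F : ℕ → ℂ) :
    ∑ m ∈ Icc 1 D, (∑ k ∈ range nn, if (2 * k + 1) ^ 2 = m then w k else 0) * F m =
      ∑ k ∈ range nn, w k * F ((2 * k + 1) ^ 2) := by
  simp_rw [Finset.sum_mul, ite_mul, zero_mul]
  rw [Finset.sum_comm]
  apply Finset.sum_congr rfl
  intro k hk
  rw [Finset.sum_ite_eq (Icc 1 D) ((2 * k + 1) ^ 2) (fun m => w k * F m)]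
  rw [if_pos]
  rw [mem_Icc]
  have hk' := mem_range.1 hk
  constructor
  · exact Nat.one_le_pow _ _ (by omega)
  · exact (Nat.pow_le_pow_left (by omega) 2).trans hD

lemma lin_eq (D : ℕ) (q : ℕ → ℂ) (x t : ℝ) :
    lin D (fun m => (q m).re) x t = (∑ m ∈ Icc 1 D, q m * Complex.exp (-(m * ((t : ℂ) + 1)))
      * ((Real.cos (Real.sqrt m * x) : ℝ) : ℂ)).re := by
  unfold lin
  rw [Complex.re_sum]
  apply Finset.sum_congr rfl
  intro m _
  have : Complex.exp (-(m * ((t : ℂ) + 1))) = ((Real.exp (-(m * (t + 1))) : ℝ) : ℂ) := by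
    push_cast; rfl
  rw [this, Complex.re_mul_ofReal, Complex.re_mul_ofReal]

theorem main : S_cauchy → S_runge → S_jump → S_cos → S_lin := by
  intro hcauchy hrunge hjump hcos K hK
  have hK0 : 0 < K := by linarith
  -- the exponent
  have hx0 : 0 < 1 / K ^ 3 := by positivity
  have hx1 : 1 / K ^ 3 ≤ 1 := by
    rw [div_le_one (by positivity)]
    exact one_le_pow₀ hK
  have hpi := Real.pi_gt_three
  set c0 := Real.cos (1 / K ^ 3) with hc0
  have hc0lt : c0 < 1 := by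
    have := Real.cos_lt_cos_of_nonneg_of_le_pi (x := 0) (y := 1 / K ^ 3) le_rfl (by linarith) hx0
    rw [Real.cos_zero] at this
    exact this
  have hc0nn : 0 ≤ c0 := Real.cos_nonneg_of_neg_pi_div_two_le_of_le (by linarith) (by linarith)
  obtain ⟨J, hJ⟩ := exists_pow_lt_of_lt_one (show 0 < 1 / (4 * (K + 2)) by positivity) hc0lt
  have hJ' : ∀ x : ℝ, |x| ≤ 1 → 1 / K ^ 3 ≤ |x| → (K + 2) * |Real.cos x| ^ (2 * J + 1) ≤ 1 / 4 := by
    intro x hx hx'
    have h1 : |Real.cos x| ≤ c0 := by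
      rw [← Real.cos_abs x, abs_of_nonneg (Real.cos_nonneg_of_neg_pi_div_two_le_of_le
        (by linarith [abs_nonneg x]) (by linarith))]
      exact Real.cos_le_cos_of_nonneg_of_le_pi hx0.le (by linarith) hx'
    have h2 : |Real.cos x| ^ (2 * J + 1) ≤ 1 / (4 * (K + 2)) := by
      calc _ ≤ c0 ^ (2 * J + 1) := pow_le_pow_left₀ (abs_nonneg _) h1 _
        _ ≤ c0 ^ J := pow_le_pow_of_le_one hc0nn hc0lt.le (by omega)
        _ ≤ _ := hJ.le
    calc _ ≤ (K + 2) * (1 / (4 * (K + 2))) := mul_le_mul_of_nonneg_left h2 (by linarith)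
      _ = 1 / 4 := by field_simp
  obtain ⟨nn, β, hβ⟩ := hcos J
  -- the exact solution
  set b : ℝ → ℝ → ℝ := fun x t => (K + 2) * ∑ k ∈ range nn,
    β k * Real.exp (-((2 * k + 1) ^ 2 * t)) * Real.cos ((2 * k + 1) * x) with hb
  have hb0 : ∀ x, b x 0 = (K + 2) * Real.cos x ^ (2 * J + 1) := by
    intro x
    rw [hb, hβ x]
    simp
  set g : ℝ → ℝ := fun t => (K + 2) * ∑ k ∈ range nn,
    |β k| * |Real.exp (-((2 * k + 1) ^ 2 * t)) - 1| with hg
  have hbg : ∀ x t, |b x t - b x 0| ≤ g t := by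
    intro x t
    rw [hb, hg]
    simp only
    rw [← mul_sub, ← Finset.sum_sub_distrib, abs_mul, abs_of_pos (show 0 < K + 2 by linarith)]
    apply mul_le_mul_of_nonneg_left _ (by linarith)
    refine (Finset.abs_sum_le_sum_abs _ _).trans ?_
    apply Finset.sum_le_sum
    intro k _
    have e : β k * Real.exp (-((2 * k + 1) ^ 2 * t)) * Real.cos ((2 * k + 1) * x) -
        β k * Real.exp (-((2 * k + 1) ^ 2 * 0)) * Real.cos ((2 * k + 1) * x) =
        β k * (Real.exp (-((2 * k + 1) ^ 2 * t)) - 1) * Real.cos ((2 * k + 1) * x) := by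
      rw [mul_zero, neg_zero, Real.exp_zero]; ring
    rw [e, abs_mul, abs_mul]
    calc _ ≤ |β k| * |Real.exp (-((2 * k + 1) ^ 2 * t)) - 1| * 1 :=
          mul_le_mul_of_nonneg_left (Real.abs_cos_le_one _) (by positivity)
      _ = _ := mul_one _
  have hgc : Continuous g := by
    rw [hg]; fun_prop
  have hg0 : g 0 = 0 := by
    rw [hg]; simp
  obtain ⟨δ, hδ, hgδ⟩ : ∃ δ > 0, ∀ t : ℝ, |t| < δ → g t ≤ 1 / 4 := by
    have := Metric.continuousAt_iff.1 (hgc.continuousAt (x := 0)) (1 / 4) (by norm_num)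
    obtain ⟨δ, hδ, h⟩ := this
    refine ⟨δ, hδ, fun t ht => ?_⟩
    have := h (x := t) (by rw [Real.dist_eq, sub_zero]; exact ht)
    rw [hg0, Real.dist_eq, sub_zero] at this
    exact (le_abs_self _).trans this.le
  obtain ⟨N, hN⟩ := exists_pow_lt_of_lt_one hδ (show (1 / 2 : ℝ) < 1 by norm_num)
  -- times
  set s : ℝ := (1 / 2 : ℝ) ^ (N + 2) with hs
  have hs0 : 0 < s := by positivity
  have htN : tn N = -(2 * s) := by
    unfold tn; rw [hs]; ring
  have htN1 : tn (N + 1) = -s := by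
    unfold tn; rw [hs]
  have hsle : s ≤ 1 / 4 := by
    rw [hs, pow_add]
    have : (1 / 2 : ℝ) ^ N ≤ 1 := pow_le_one₀ (by norm_num) (by norm_num)
    norm_num
    linarith
  have hsδ : s < δ := by
    rw [hs, pow_add]
    have : 0 < (1 / 2 : ℝ) ^ N := by positivity
    norm_num at hN ⊢
    linarith
  set a : ℝ := -(3 / 2 * s) with ha
  set d : ℝ := s / 4 with hd
  have hd0 : 0 < d := by positivity
  set ρ : ℝ := min (d / 2) (1 / 20) with hρ
  have hρ0 : 0 < ρ := lt_min (by positivity) (by norm_num)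
  have hρ1 : ρ ≤ d / 2 := min_le_left _ _
  have hρ2 : ρ ≤ 1 / 20 := min_le_right _ _
  -- the bound for `G`
  set G : ℂ → ℂ := fun z => ∑ k ∈ range nn, ((((K + 2) * β k : ℝ)) : ℂ) *
    Complex.exp (-((2 * k + 1) ^ 2 * z)) with hG
  set Mb : ℝ := ∑ k ∈ range nn, |(K + 2) * β k| * Real.exp (2 * (2 * k + 1) ^ 2) + 1 with hMb
  have hMb0 : 0 < Mb := by
    have : 0 ≤ ∑ k ∈ range nn, |(K + 2) * β k| * Real.exp (2 * (2 * k + 1) ^ 2) :=
      Finset.sum_nonneg (fun k _ => by positivity)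
    linarith
  have hGb : ∀ z : ℂ, -1 - 1 / 20 ≤ z.re → ‖G z‖ ≤ Mb := by
    intro z hz
    rw [hG, hMb]
    refine (norm_sum_le _ _).trans ?_
    have : ∑ k ∈ range nn, ‖((((K + 2) * β k : ℝ)) : ℂ) * Complex.exp (-((2 * k + 1) ^ 2 * z))‖ ≤
        ∑ k ∈ range nn, |(K + 2) * β k| * Real.exp (2 * (2 * k + 1) ^ 2) := by
      apply Finset.sum_le_sum
      intro k _
      rw [norm_mul, Complex.norm_real, Real.norm_eq_abs, Complex.norm_exp]
      apply mul_le_mul_of_nonneg_left _ (abs_nonneg _)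
      apply Real.exp_le_exp.2
      have e : ((2 * (k : ℂ) + 1) ^ 2 * z) = (((2 * (k : ℝ) + 1) ^ 2 : ℝ) : ℂ) * z := by
        push_cast; ring
      rw [Complex.neg_re, e, Complex.re_ofReal_mul]
      nlinarith [sq_nonneg (2 * (k : ℝ) + 1)]
    linarith
  have hGd : Differentiable ℂ G := by
    rw [hG]; fun_prop
  -- the jump
  set η1 : ℝ := Real.exp (-(1 / ρ)) / (8 * Mb) with hη1
  have hη10 : 0 < η1 := by positivity
  set η2 : ℝ := Real.exp (-(1 / ρ)) / 8 with hη2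
  have hη20 : 0 < η2 := by positivity
  have hsm : (η1 * Mb + η2) * Real.exp (1 / ρ) = 1 / 4 := by
    rw [hη1, hη2, Real.exp_neg]
    have := Real.exp_pos (1 / ρ)
    field_simp
    norm_num
  obtain ⟨θ, hθd, hθ0, hθ1⟩ := hjump a d η1 hd0 hη10
  obtain ⟨D, q, hq⟩ := hrunge (fun z => θ z * G z) (hθd.mul hGd) η2 hη20
  -- `G` as an exponential sum
  set Db : ℕ := max D ((2 * nn + 1) ^ 2) with hDb
  set w : ℕ → ℂ := fun k => (((K + 2) * β k * Real.exp ((2 * k + 1) ^ 2) : ℝ) : ℂ) with hw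
  set qb : ℕ → ℂ := fun m => ∑ k ∈ range nn, if (2 * k + 1) ^ 2 = m then w k else 0 with hqb
  set qe : ℕ → ℂ := fun m => if m ≤ D then q m else 0 with hqe
  have hsumb : ∀ F : ℕ → ℂ, ∑ m ∈ Icc 1 Db, qb m * F m = ∑ k ∈ range nn, w k * F ((2 * k + 1) ^ 2) :=
    fun F => sum_sq nn Db (le_max_right _ _) w F
  have hsume : ∀ F : ℕ → ℂ, ∑ m ∈ Icc 1 Db, qe m * F m = ∑ m ∈ Icc 1 D, q m * F m :=
    fun F => sum_ext D Db (le_max_left _ _) q F
  have hGs : ∀ z : ℂ, ∑ m ∈ Icc 1 Db, qb m * Complex.exp (-(m * (z + 1))) = G z := by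
    intro z
    rw [hsumb (fun m => Complex.exp (-(m * (z + 1))))]
    apply Finset.sum_congr rfl
    intro k _
    simp only [hw]
    rw [Complex.ofReal_mul ((K + 2) * β k), Complex.ofReal_exp, mul_assoc, ← Complex.exp_add]
    congr 2
    push_cast
    ring
  have hbs : ∀ x t : ℝ, ∑ m ∈ Icc 1 Db, qb m * (Complex.exp (-(m * ((t : ℂ) + 1)))
      * ((Real.cos (Real.sqrt m * x) : ℝ) : ℂ)) = ((b x t : ℝ) : ℂ) := by
    intro x t
    rw [hsumb (fun m => Complex.exp (-(m * ((t : ℂ) + 1))) * ((Real.cos (Real.sqrt m * x) : ℝ) : ℂ))]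
    rw [hb]
    simp only
    rw [Finset.mul_sum, Complex.ofReal_sum]
    apply Finset.sum_congr rfl
    intro k _
    have hsq : Real.sqrt (((2 * k + 1) ^ 2 : ℕ) : ℝ) = 2 * k + 1 := by
      push_cast
      exact Real.sqrt_sq (by positivity)
    rw [hsq]
    have e1 : Complex.exp (-((((2 * k + 1) ^ 2 : ℕ) : ℂ) * ((t : ℂ) + 1))) =
        ((Real.exp (-((2 * k + 1) ^ 2 * (t + 1))) : ℝ) : ℂ) := by
      push_cast; rfl
    rw [e1]
    simp only [hw]
    rw [← Complex.ofReal_mul, ← Complex.ofReal_mul]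
    congr 1
    have e2 : Real.exp ((2 * k + 1) ^ 2) * Real.exp (-((2 * k + 1) ^ 2 * (t + 1))) =
        Real.exp (-((2 * k + 1) ^ 2 * t)) := by
      rw [← Real.exp_add]; congr 1; ring
    rw [← e2]
    ring
  have hG2 : ∀ z : ℂ, -1 - 1 / 20 ≤ z.re → z.re ≤ 1 / 20 → |z.im| ≤ 1 / 20 →
      ‖θ z * G z - ∑ m ∈ Icc 1 D, q m * Complex.exp (-(m * (z + 1)))‖ ≤ η2 := hq
  -- early times
  have early : ∀ t : ℝ, -1 / 2 ≤ t → t ≤ -(2 * s) → ∀ x : ℝ, |x| ≤ 1 →
      |lin D (fun m => (q m).re) x t| ≤ 1 / 4 := by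
    intro t ht1 ht2 x hx
    rw [lin_eq]
    refine (Complex.abs_re_le_norm _).trans ?_
    rw [← hsm]
    apply hcauchy D q t ρ (η1 * Mb + η2) hρ0 _ x hx
    intro z hz
    have hre := (Complex.abs_re_le_norm (z - t)).trans hz
    have him := (Complex.abs_im_le_norm (z - t)).trans hz
    simp only [Complex.sub_re, Complex.ofReal_re, Complex.sub_im, Complex.ofReal_im, sub_zero] at hre him
    rw [abs_le] at hre
    have h1 := hG2 z (by linarith) (by linarith) (by linarith)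
    have h2 := hθ0 z (by rw [ha, hd]; linarith) (by linarith)
    have h3 := hGb z (by linarith)
    have h4 : ‖θ z * G z‖ ≤ η1 * Mb := by
      rw [norm_mul]; exact mul_le_mul h2 h3 (norm_nonneg _) hη10.le
    have h5 := norm_sub_norm_le (∑ m ∈ Icc 1 D, q m * Complex.exp (-(m * (z + 1)))) (θ z * G z)
    rw [norm_sub_rev] at h5
    linarith
  -- late times
  have late : ∀ t : ℝ, -s ≤ t → t ≤ 0 → ∀ x : ℝ, |x| ≤ 1 →
      |lin D (fun m => (q m).re) x t - b x t| ≤ 1 / 4 := by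
    intro t ht1 ht2 x hx
    have e1 : ∑ m ∈ Icc 1 D, q m * Complex.exp (-(m * ((t : ℂ) + 1)))
        * ((Real.cos (Real.sqrt m * x) : ℝ) : ℂ) - ((b x t : ℝ) : ℂ) =
        ∑ m ∈ Icc 1 Db, (qe m - qb m) * Complex.exp (-(m * ((t : ℂ) + 1)))
        * ((Real.cos (Real.sqrt m * x) : ℝ) : ℂ) := by
      rw [← hbs x t]
      simp_rw [mul_assoc]
      rw [← hsume (fun m => Complex.exp (-(m * ((t : ℂ) + 1))) * ((Real.cos (Real.sqrt m * x) : ℝ) : ℂ)),
        ← Finset.sum_sub_distrib]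
      apply Finset.sum_congr rfl
      intro m _
      ring
    have e2 : lin D (fun m => (q m).re) x t - b x t = (∑ m ∈ Icc 1 Db, (qe m - qb m) *
        Complex.exp (-(m * ((t : ℂ) + 1))) * ((Real.cos (Real.sqrt m * x) : ℝ) : ℂ)).re := by
      rw [← e1, Complex.sub_re, Complex.ofReal_re, lin_eq]
    rw [e2]
    refine (Complex.abs_re_le_norm _).trans ?_
    rw [← hsm]
    apply hcauchy Db (fun m => qe m - qb m) t ρ (η1 * Mb + η2) hρ0 _ x hx
    intro z hz
    have hre := (Complex.abs_re_le_norm (z - t)).trans hz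
    have him := (Complex.abs_im_le_norm (z - t)).trans hz
    simp only [Complex.sub_re, Complex.ofReal_re, Complex.sub_im, Complex.ofReal_im, sub_zero] at hre him
    rw [abs_le] at hre
    have h1 := hG2 z (by linarith) (by linarith) (by linarith)
    have h2 := hθ1 z (by rw [ha, hd]; linarith) (by linarith)
    have h3 := hGb z (by linarith)
    have e3 : ∑ m ∈ Icc 1 Db, (qe m - qb m) * Complex.exp (-(m * (z + 1))) =
        -(θ z * G z - ∑ m ∈ Icc 1 D, q m * Complex.exp (-(m * (z + 1)))) - (1 - θ z) * G z := by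
      simp_rw [sub_mul]
      rw [Finset.sum_sub_distrib, hGs z, hsume (fun m => Complex.exp (-(m * (z + 1))))]
      ring
    rw [e3]
    refine (norm_sub_le _ _).trans ?_
    rw [norm_neg, norm_mul]
    have h4 : ‖1 - θ z‖ * ‖G z‖ ≤ η1 * Mb := mul_le_mul h2 h3 (norm_nonneg _) hη10.le
    linarith
  have late2 : ∀ t : ℝ, -s ≤ t → t ≤ 0 → ∀ x : ℝ, |x| ≤ 1 →
      |lin D (fun m => (q m).re) x t - (K + 2) * Real.cos x ^ (2 * J + 1)| ≤ 1 / 2 := by
    intro t ht1 ht2 x hx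
    have h1 := late t ht1 ht2 x hx
    have h2 := (hbg x t).trans (hgδ t (by rw [abs_of_nonpos ht2]; linarith))
    rw [hb0] at h2
    have h3 := abs_add_le (lin D (fun m => (q m).re) x t - b x t)
      (b x t - (K + 2) * Real.cos x ^ (2 * J + 1))
    rw [sub_add_sub_cancel] at h3
    linarith
  have htn : ∀ n : ℕ, N + 1 ≤ n → -s ≤ tn n ∧ tn n ≤ 0 := by
    intro n hn
    unfold tn
    constructor
    · rw [hs]
      have : (1 / 2 : ℝ) ^ (n + 1) ≤ (1 / 2 : ℝ) ^ (N + 2) :=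
        pow_le_pow_of_le_one (by norm_num) (by norm_num) (by omega)
      linarith
    · have : 0 < (1 / 2 : ℝ) ^ (n + 1) := by positivity
      linarith
  have htn' : ∀ n : ℕ, n ≤ N → -1 / 2 ≤ tn n ∧ tn n ≤ -(2 * s) := by
    intro n hn
    rw [← htN]
    unfold tn
    constructor
    · have : (1 / 2 : ℝ) ^ (n + 1) ≤ 1 / 2 := by
        rw [pow_succ]
        have : (1 / 2 : ℝ) ^ n ≤ 1 := pow_le_one₀ (by norm_num) (by norm_num)
        linarith
      linarith
    · have : (1 / 2 : ℝ) ^ (N + 1) ≤ (1 / 2 : ℝ) ^ (n + 1) :=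
        pow_le_pow_of_le_one (by norm_num) (by norm_num) (by omega)
      linarith
  have hcosle : ∀ x : ℝ, |(K + 2) * Real.cos x ^ (2 * J + 1)| = (K + 2) * |Real.cos x| ^ (2 * J + 1) := by
    intro x
    rw [abs_mul, abs_pow, abs_of_pos (show 0 < K + 2 by linarith)]
  refine ⟨D, fun m => (q m).re, ?_, ?_, ?_⟩
  · have h1 := late2 0 (by linarith) le_rfl 0 (by simp)
    rw [Real.cos_zero, one_pow, mul_one, abs_le] at h1
    linarith [h1.1]
  · intro n x hx
    rcases Nat.lt_or_ge N n with h | h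
    · have h1 := late2 (tn n) (htn n h).1 (htn n h).2 x hx
      have h2 : (K + 2) * |Real.cos x| ^ (2 * J + 1) ≤ K + 2 := by
        have : |Real.cos x| ^ (2 * J + 1) ≤ 1 := pow_le_one₀ (abs_nonneg _) (Real.abs_cos_le_one x)
        nlinarith
      rw [← hcosle] at h2
      have h3 := abs_add_le (lin D (fun m => (q m).re) x (tn n) - (K + 2) * Real.cos x ^ (2 * J + 1))
        ((K + 2) * Real.cos x ^ (2 * J + 1))
      rw [sub_add_cancel] at h3
      linarith
    · have := early (tn n) (htn' n h).1 (htn' n h).2 x hx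
      linarith
  · intro n x hx hx'
    rcases Nat.lt_or_ge N n with h | h
    · have h1 := late2 (tn n) (htn n h).1 (htn n h).2 x hx
      have h2 := hJ' x hx hx'
      rw [← hcosle] at h2
      have h3 := abs_add_le (lin D (fun m => (q m).re) x (tn n) - (K + 2) * Real.cos x ^ (2 * J + 1))
        ((K + 2) * Real.cos x ^ (2 * J + 1))
      rw [sub_add_cancel] at h3
      linarith
    · have := early (tn n) (htn' n h).1 (htn' n h).2 x hx
      linarith

end Pool.Agent.W688.QR.Lin
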