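import Pool.Agent.W785.QR.Stm

/-!
QR-PHI: joint smoothness of `Phi f`
-/

set_option autoImplicit false

namespace Pool.Agent.W688.QR.PhiS

open Pool.Agent.W785.QR MeasureTheory Set
open scoped FourierTransform ContDiff RealInnerProductSpace ComplexConjugate

lemma ti_open : IsOpen TI := isOpen_Ioo

lemma rap_bound {f : ℝ → E → ℂ} (hf : Rap f) :
    ∃ C : ℝ, ∀ t ∈ TI, ∀ ξ, ‖f t ξ‖ ≤ C * (1 + ‖ξ‖) ^ (-(4 : ℝ)) := by
  obtain ⟨C, hC⟩ := hf.2 4
  refine ⟨C, fun t ht ξ => ?_⟩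
  have h := hC t ht ξ
  have hp : 0 < (1 + ‖ξ‖) ^ 4 := by positivity
  have e : (1 + ‖ξ‖) ^ (-(4 : ℝ)) = ((1 + ‖ξ‖) ^ 4)⁻¹ := by
    rw [Real.rpow_neg (by positivity)]
    congr 1
    exact_mod_cast Real.rpow_natCast (1 + ‖ξ‖) 4
  rw [e, ← div_eq_mul_inv, le_div_iff₀ hp]
  exact h

lemma int4 (C : ℝ) : Integrable (fun ξ : E => C * (1 + ‖ξ‖) ^ (-(4 : ℝ))) := by
  apply Integrable.const_mul
  apply integrable_one_add_norm
  simp
  norm_num

/-- the exponential -/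
noncomputable def ex (ξ x : E) : ℂ := Complex.exp (((2 * Real.pi * ⟪ξ, x⟫ : ℝ) : ℂ) * Complex.I)

lemma norm_ex (ξ x : E) : ‖ex ξ x‖ = 1 := Complex.norm_exp_ofReal_mul_I _

lemma ex_cont : Continuous (fun p : E × E => ex p.1 p.2) := by
  unfold ex; fun_prop

lemma phi_eq (f : ℝ → E → ℂ) (t : ℝ) (x : E) : Phi f t x = ∫ ξ, ex ξ x * f t ξ := by
  unfold Phi ex
  rw [Real.fourierInv_eq']
  rfl

lemma meas_int {f : ℝ → E → ℂ} (hf : Rap f) {t : ℝ} (ht : t ∈ TI) (x : E) :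
    AEStronglyMeasurable (fun ξ => ex ξ x * f t ξ) volume := by
  apply AEStronglyMeasurable.mul
  · exact (ex_cont.comp (Continuous.prodMk continuous_id continuous_const)).aestronglyMeasurable
  · exact (hf.1 t ht).aestronglyMeasurable

lemma int_f {f : ℝ → E → ℂ} (hf : Rap f) {t : ℝ} (ht : t ∈ TI) (x : E) :
    Integrable (fun ξ => ex ξ x * f t ξ) := by
  obtain ⟨C, hC⟩ := rap_bound hf
  refine (int4 C).mono' (meas_int hf ht x) ?_
  filter_upwards with ξ
  rw [norm_mul, norm_ex, one_mul]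
  exact hC t ht ξ

lemma cont_phi {f : ℝ → E → ℂ} (hf : Rap f) (hc : ∀ ξ, ContinuousOn (fun t => f t ξ) TI) :
    ContinuousOn (Function.uncurry (Phi f)) (TI ×ˢ univ) := by
  obtain ⟨C, hC⟩ := rap_bound hf
  have e : Function.uncurry (Phi f) = fun p : ℝ × E => ∫ ξ, ex ξ p.2 * f p.1 ξ := by
    ext p; exact phi_eq f p.1 p.2
  rw [e]
  apply continuousOn_of_dominated (bound := fun ξ : E => C * (1 + ‖ξ‖) ^ (-(4 : ℝ)))
  · intro p hp
    exact meas_int hf hp.1 p.2
  · intro p hp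
    filter_upwards with ξ
    rw [norm_mul, norm_ex, one_mul]
    exact hC p.1 hp.1 ξ
  · exact int4 C
  · filter_upwards with ξ
    apply ContinuousOn.mul
    · exact (ex_cont.comp (Continuous.prodMk continuous_const continuous_snd)).continuousOn
    · exact (hc ξ).comp continuous_fst.continuousOn (fun p hp => hp.1)

/-- the time functional -/
noncomputable def A0 : ℝ × E →L[ℝ] ℝ := ContinuousLinearMap.fst ℝ ℝ E

/-- the space functionals -/
noncomputable def Aj (j : Fin 3) : ℝ × E →L[ℝ] ℝ :=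
  (EuclideanSpace.proj j : E →L[ℝ] ℝ).comp (ContinuousLinearMap.snd ℝ ℝ E)

/-- multiplication by `2 π i ξ_j` -/
noncomputable def gj (f : ℝ → E → ℂ) (j : Fin 3) : ℝ → E → ℂ :=
  fun t ξ => 2 * (Real.pi : ℂ) * Complex.I * ((ξ j : ℝ) : ℂ) * f t ξ

/-- the smulRight map -/
noncomputable def SR (A : ℝ × E →L[ℝ] ℝ) : ℂ →L[ℝ] (ℝ × E →L[ℝ] ℂ) :=
  ContinuousLinearMap.smulRightL ℝ (ℝ × E) ℂ A

lemma SR_apply (A : ℝ × E →L[ℝ] ℝ) (c : ℂ) (v : ℝ × E) : SR A c v = (A v : ℂ) * c := by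
  unfold SR
  simp [ContinuousLinearMap.smulRightL]

/-- derivative of the integrand -/
noncomputable def F' (f f' : ℝ → E → ℂ) (p : ℝ × E) (ξ : E) : ℝ × E →L[ℝ] ℂ :=
  SR A0 (ex ξ p.2 * f' p.1 ξ) + ∑ j, SR (Aj j) (ex ξ p.2 * gj f j p.1 ξ)

lemma hasF {f f' : ℝ → E → ℂ} (hd : ∀ t ∈ TI, ∀ ξ, HasDerivAt (fun s => f s ξ) (f' t ξ) t)
    (ξ : E) (p : ℝ × E) (hp : p.1 ∈ TI) :
    HasFDerivAt (fun p : ℝ × E => ex ξ p.2 * f p.1 ξ) (F' f f' p ξ) p := by
  have h1 : HasFDerivAt (fun p : ℝ × E => f p.1 ξ)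
      ((ContinuousLinearMap.toSpanSingleton ℝ (f' p.1 ξ)).comp (ContinuousLinearMap.fst ℝ ℝ E)) p :=
    (hd p.1 hp ξ).hasFDerivAt.comp p hasFDerivAt_fst
  have h2 : HasFDerivAt (fun p : ℝ × E => 2 * Real.pi * ⟪ξ, p.2⟫)
      ((2 * Real.pi) • ((innerSL ℝ ξ).comp (ContinuousLinearMap.snd ℝ ℝ E))) p := by
    have h3 : HasFDerivAt (fun p : ℝ × E => ⟪ξ, p.2⟫)
        ((innerSL ℝ ξ).comp (ContinuousLinearMap.snd ℝ ℝ E)) p :=
      ((innerSL ℝ ξ).comp (ContinuousLinearMap.snd ℝ ℝ E)).hasFDerivAt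
    exact h3.const_mul (2 * Real.pi)
  have h4 : HasFDerivAt (fun p : ℝ × E => (((2 * Real.pi * ⟪ξ, p.2⟫ : ℝ) : ℂ) * Complex.I))
      (Complex.I • (Complex.ofRealCLM.comp
        ((2 * Real.pi) • ((innerSL ℝ ξ).comp (ContinuousLinearMap.snd ℝ ℝ E))))) p :=
    (Complex.ofRealCLM.hasFDerivAt.comp p h2).mul_const Complex.I
  have h5 := h4.cexp
  have h6 := h5.mul h1
  refine h6.congr_fderiv ?_
  ext v
  · simp only [F', _root_.add_apply, _root_.sum_apply, SR_apply,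
      _root_.smul_apply, ContinuousLinearMap.comp_apply, A0, Aj]
    simp [ex]
  · simp only [F', _root_.add_apply, _root_.sum_apply, SR_apply,
      _root_.smul_apply, ContinuousLinearMap.comp_apply, A0, Aj]
    simp [ex, gj, PiLp.inner_apply, Fin.sum_univ_three]
    ring

lemma norm_F' (f f' : ℝ → E → ℂ) (p : ℝ × E) (ξ : E) :
    ‖F' f f' p ξ‖ ≤ ‖SR A0‖ * ‖f' p.1 ξ‖ + ∑ j, ‖SR (Aj j)‖ * ‖gj f j p.1 ξ‖ := by
  unfold F'
  refine (norm_add_le _ _).trans ?_
  apply add_le_add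
  · refine (ContinuousLinearMap.le_opNorm _ _).trans ?_
    rw [norm_mul, norm_ex, one_mul]
  · refine (norm_sum_le _ _).trans ?_
    apply Finset.sum_le_sum
    intro j _
    refine (ContinuousLinearMap.le_opNorm _ _).trans ?_
    rw [norm_mul, norm_ex, one_mul]

lemma hasFDeriv_phi {f f' : ℝ → E → ℂ} (hf : Rap f) (hf' : Rap f') (hg : ∀ j, Rap (gj f j))
    (hd : ∀ t ∈ TI, ∀ ξ, HasDerivAt (fun s => f s ξ) (f' t ξ) t) (p : ℝ × E) (hp : p.1 ∈ TI) :
    HasFDerivAt (Function.uncurry (Phi f))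
      (SR A0 (Phi f' p.1 p.2) + ∑ j, SR (Aj j) (Phi (gj f j) p.1 p.2)) p := by
  obtain ⟨C0, hC0⟩ := rap_bound hf'
  choose C hC using fun j => rap_bound (hg j)
  have e : Function.uncurry (Phi f) = fun p : ℝ × E => ∫ ξ, ex ξ p.2 * f p.1 ξ := by
    ext p; exact phi_eq f p.1 p.2
  have hs : (TI ×ˢ (univ : Set E)) ∈ nhds p := (ti_open.prod isOpen_univ).mem_nhds ⟨hp, trivial⟩
  have hI : ∫ ξ, F' f f' p ξ = SR A0 (Phi f' p.1 p.2) + ∑ j, SR (Aj j) (Phi (gj f j) p.1 p.2) := by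
    unfold F'
    rw [integral_add, integral_finsetSum]
    · rw [(SR A0).integral_comp_comm (int_f hf' hp p.2), ← phi_eq]
      congr 1
      apply Finset.sum_congr rfl
      intro j _
      rw [(SR (Aj j)).integral_comp_comm (int_f (hg j) hp p.2), ← phi_eq]
    · intro j _
      exact (SR (Aj j)).integrable_comp (int_f (hg j) hp p.2)
    · exact (SR A0).integrable_comp (int_f hf' hp p.2)
    · apply integrable_finsetSum
      intro j _
      exact (SR (Aj j)).integrable_comp (int_f (hg j) hp p.2)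
  rw [e, ← hI]
  apply hasFDerivAt_integral_of_dominated_of_fderiv_le (F' := F' f f') (s := TI ×ˢ univ)
    (bound := fun ξ : E => ‖SR A0‖ * (C0 * (1 + ‖ξ‖) ^ (-(4 : ℝ))) +
      ∑ j, ‖SR (Aj j)‖ * (C j * (1 + ‖ξ‖) ^ (-(4 : ℝ)))) hs
  · filter_upwards [hs] with q hq
    exact meas_int hf hq.1 q.2
  · exact int_f hf hp p.2
  · unfold F'
    apply AEStronglyMeasurable.add
    · exact ((SR A0).integrable_comp (int_f hf' hp p.2)).aestronglyMeasurable
    · exact (integrable_finsetSum _ (fun j _ =>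
        (SR (Aj j)).integrable_comp (int_f (hg j) hp p.2))).aestronglyMeasurable
  · filter_upwards with ξ q hq
    refine (norm_F' f f' q ξ).trans ?_
    apply add_le_add
    · exact mul_le_mul_of_nonneg_left (hC0 q.1 hq.1 ξ) (SR A0).opNorm_nonneg
    · apply Finset.sum_le_sum
      intro j _
      exact mul_le_mul_of_nonneg_left (hC j q.1 hq.1 ξ) (SR (Aj j)).opNorm_nonneg
  · apply Integrable.add
    · exact (int4 C0).const_mul _
    · apply integrable_finsetSum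
      intro j _
      exact (int4 (C j)).const_mul _
  · filter_upwards with ξ q hq
    exact hasF hd ξ q hq.1

lemma sm_rap {n : ℕ} {f : ℝ → E → ℂ} (h : Sm n f) : Rap f := by
  cases n with
  | zero => exact h.1
  | succ n => exact h.1

lemma norm_coord (ξ : E) (j : Fin 3) : |ξ j| ≤ ‖ξ‖ := by
  have := PiLp.norm_apply_le ξ j
  simpa using this

lemma sm_gj (hsymb : S_symb) {n : ℕ} {f : ℝ → E → ℂ} (h : Sm n f) (j : Fin 3) : Sm n (gj f j) := by
  apply hsymb n f (fun ξ => 2 * (Real.pi : ℂ) * Complex.I * ((ξ j : ℝ) : ℂ)) _ _ h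
  · fun_prop
  · refine ⟨1, 2 * Real.pi, fun ξ => ?_⟩
    rw [norm_mul, norm_mul, norm_mul, Complex.norm_I, Complex.norm_real, Complex.norm_real,
      Real.norm_eq_abs, Real.norm_eq_abs, abs_of_pos Real.pi_pos, pow_one]
    have := norm_coord ξ j
    simp only [Complex.norm_ofNat, mul_one]
    apply mul_le_mul_of_nonneg_left _ (by positivity)
    linarith

lemma step (hmono : S_mono) (hsymb : S_symb) (n : ℕ) : ∀ f : ℝ → E → ℂ, Sm n f →
    ContDiffOn ℝ n (Function.uncurry (Phi f)) (TI ×ˢ univ) := by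
  induction n with
  | zero =>
    intro f hf
    rw [Nat.cast_zero, contDiffOn_zero]
    exact cont_phi hf.1 hf.2
  | succ n ih =>
    intro f hf
    obtain ⟨hr, f', hf', hd⟩ := hf
    have hfn : Sm n f := hmono n f ⟨hr, f', hf', hd⟩
    have hder := hasFDeriv_phi hr (sm_rap hf') (fun j => sm_rap (sm_gj hsymb hfn j)) hd
    rw [Nat.cast_add, Nat.cast_one, contDiffOn_succ_iff_fderiv_of_isOpen (ti_open.prod isOpen_univ)]
    refine ⟨fun p hp => (hder p hp.1).differentiableAt.differentiableWithinAt, ?_, ?_⟩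
    · intro h; exact absurd h (by simp)
    · have h1 : ContDiffOn ℝ n (fun p : ℝ × E => SR A0 (Function.uncurry (Phi f') p) +
          ∑ j, SR (Aj j) (Function.uncurry (Phi (gj f j)) p)) (TI ×ˢ univ) := by
        apply ContDiffOn.add
        · exact (SR A0).contDiff.comp_contDiffOn (ih f' hf')
        · apply ContDiffOn.sum
          intro j _
          exact (SR (Aj j)).contDiff.comp_contDiffOn (ih _ (sm_gj hsymb hfn j))
      apply h1.congr
      intro p hp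
      exact (hder p hp.1).fderiv

theorem main : S_mono → S_symb → S_phi := by
  intro hmono hsymb f hf
  rw [contDiffOn_infty]
  intro n
  exact step hmono hsymb n f (hf n)

end Pool.Agent.W688.QR.PhiS
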