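import Pool.Agent.W688.QR.PhiS

/-!
QR-REG: from the Fourier side to a smooth finite energy solution
-/

set_option autoImplicit false

namespace Pool.Agent.W688.QR.Reg

open Pool.Agent.W785.QR Pool.Agent.W688.QR.PhiS MeasureTheory Set
open scoped FourierTransform ContDiff RealInnerProductSpace ComplexConjugate ENNReal

/-! ### linearity of `Phi` -/

lemma phi_add {f g : ℝ → E → ℂ} (hf : Rap f) (hg : Rap g) {t : ℝ} (ht : t ∈ TI) (x : E) :
    Phi (fun t ξ => f t ξ + g t ξ) t x = Phi f t x + Phi g t x := by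
  rw [phi_eq, phi_eq, phi_eq, ← integral_add (int_f hf ht x) (int_f hg ht x)]
  congr 1; ext ξ; ring

lemma phi_neg (f : ℝ → E → ℂ) (t : ℝ) (x : E) :
    Phi (fun t ξ => -f t ξ) t x = -Phi f t x := by
  rw [phi_eq, phi_eq, ← integral_neg]
  congr 1; ext ξ; ring

lemma phi_congr {f g : ℝ → E → ℂ} {t : ℝ} (h : ∀ ξ, f t ξ = g t ξ) (x : E) :
    Phi f t x = Phi g t x := by
  rw [phi_eq, phi_eq]
  congr 1; ext ξ; rw [h]

lemma phi_sum3 {f : Fin 3 → ℝ → E → ℂ} (hf : ∀ k, Rap (f k)) (h01 : Rap fun t ξ => f 0 t ξ + f 1 t ξ)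
    {t : ℝ} (ht : t ∈ TI) (x : E) :
    Phi (fun t ξ => ∑ k, f k t ξ) t x = ∑ k, Phi (f k) t x := by
  rw [Fin.sum_univ_three, ← phi_add (hf 0) (hf 1) ht, ← phi_add h01 (hf 2) ht]
  apply phi_congr
  intro ξ
  rw [Fin.sum_univ_three]

/-! ### calculus in `E` -/

/-- the inverse coordinate map -/
noncomputable def LE : (Fin 3 → ℝ) →L[ℝ] E := ((EuclideanSpace.equiv (Fin 3) ℝ).symm : (Fin 3 → ℝ) →L[ℝ] E)

lemma LE_apply (g : Fin 3 → ℝ) : LE g = WithLp.toLp 2 g := rfl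

lemma hasFDerivAt_toLp {X : Type*} [NormedAddCommGroup X] [NormedSpace ℝ X] {g : X → Fin 3 → ℝ}
    {g' : Fin 3 → (X →L[ℝ] ℝ)} {x : X} (h : ∀ j, HasFDerivAt (fun y => g y j) (g' j) x) :
    HasFDerivAt (fun y => (WithLp.toLp 2 (g y) : E)) (LE.comp (ContinuousLinearMap.pi g')) x := by
  have h1 : HasFDerivAt (fun y i => g y i) (ContinuousLinearMap.pi g') x := hasFDerivAt_pi.2 h
  exact LE.hasFDerivAt.comp x h1

lemma hasDerivAt_toLp {g : ℝ → Fin 3 → ℝ} {g' : Fin 3 → ℝ} {s : ℝ}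
    (h : ∀ j, HasDerivAt (fun y => g y j) (g' j) s) :
    HasDerivAt (fun y => (WithLp.toLp 2 (g y) : E)) (WithLp.toLp 2 g') s := by
  have h1 : HasDerivAt (fun y i => g y i) g' s := hasDerivAt_pi.2 h
  exact LE.hasFDerivAt.comp_hasDerivAt s h1

lemma fderiv_vel (hdphi : S_dphi) {b : Fin 3 → ℝ → E → ℂ} (hb : ∀ j, Rap (b j)) {t : ℝ} (ht : t ∈ TI)
    (x : E) : DifferentiableAt ℝ (vel b t) x ∧ ∀ h : E, fderiv ℝ (vel b t) x h =
      WithLp.toLp 2 fun j => ∑ k, h k * (Phi (gj (b j) k) t x).re := by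
  have h1 : ∀ j, HasFDerivAt (fun y => (Phi (b j) t y).re)
      (Complex.reCLM.comp (fderiv ℝ (Phi (b j) t) x)) x := by
    intro j
    have := (hdphi.2 (b j) (hb j) t ht x).1
    exact Complex.reCLM.hasFDerivAt.comp x this.hasFDerivAt
  have h2 : HasFDerivAt (vel b t) (LE.comp (ContinuousLinearMap.pi fun j =>
      Complex.reCLM.comp (fderiv ℝ (Phi (b j) t) x))) x :=
    hasFDerivAt_toLp (g := fun y j => (Phi (b j) t y).re) h1
  refine ⟨h2.differentiableAt, ?_⟩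
  intro h
  rw [h2.fderiv]
  simp only [ContinuousLinearMap.comp_apply, LE_apply]
  congr 1
  ext j
  simp only [ContinuousLinearMap.pi_apply, ContinuousLinearMap.comp_apply, Complex.reCLM_apply]
  rw [(hdphi.2 (b j) (hb j) t ht x).2 h, Complex.re_sum]
  apply Finset.sum_congr rfl
  intro k _
  rw [Complex.re_ofReal_mul]
  rfl

lemma basis_coord (i k : Fin 3) : (EuclideanSpace.basisFun (Fin 3) ℝ i) k = if k = i then 1 else 0 := by
  rw [EuclideanSpace.basisFun_apply]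
  simp [Pi.single_apply]

lemma fderiv_vel_basis (hdphi : S_dphi) {b : Fin 3 → ℝ → E → ℂ} (hb : ∀ j, Rap (b j)) {t : ℝ}
    (ht : t ∈ TI) (x : E) (i : Fin 3) :
    fderiv ℝ (vel b t) x (EuclideanSpace.basisFun (Fin 3) ℝ i) = vel (fun j => gj (b j) i) t x := by
  rw [(fderiv_vel hdphi hb ht x).2]
  unfold vel
  congr 1
  ext j
  simp only [basis_coord, ite_mul, one_mul, zero_mul, Finset.sum_ite_eq', Finset.mem_univ, if_true]

lemma grad_coord (f : E → ℝ) (x : E) (j : Fin 3) :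
    (gradient f x) j = fderiv ℝ f x (EuclideanSpace.basisFun (Fin 3) ℝ j) := by
  rw [← inner_gradient_left]
  simp only [PiLp.inner_apply, basis_coord]
  simp

/-! ### closure properties -/

/-- smooth of every order -/
def SmA (f : ℝ → E → ℂ) : Prop := ∀ n, Sm n f

lemma SmA.rap {f : ℝ → E → ℂ} (h : SmA f) : Rap f := (h 0).1

lemma SmA.add (hadd : S_add) {f g : ℝ → E → ℂ} (hf : SmA f) (hg : SmA g) :
    SmA fun t ξ => f t ξ + g t ξ := fun n => hadd n f g (hf n) (hg n)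

lemma SmA.neg (hsymb : S_symb) {f : ℝ → E → ℂ} (hf : SmA f) : SmA fun t ξ => -f t ξ := by
  intro n
  have := hsymb n f (fun _ => -1) measurable_const ⟨0, 1, fun ξ => by simp⟩ (hf n)
  simpa using this

lemma SmA.gj (hsymb : S_symb) {f : ℝ → E → ℂ} (hf : SmA f) (j : Fin 3) : SmA (gj f j) :=
  fun n => sm_gj hsymb (hf n) j

lemma SmA.conv (hconv : S_conv) {f g : ℝ → E → ℂ} (hf : SmA f) (hg : SmA g) : SmA (conv f g) :=
  fun n => hconv n f g (hf n) (hg n)

lemma SmA.sum3 (hadd : S_add) {f : Fin 3 → ℝ → E → ℂ} (hf : ∀ k, SmA (f k)) :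
    SmA fun t ξ => ∑ k, f k t ξ := by
  simp_rw [Fin.sum_univ_three]
  exact ((hf 0).add hadd (hf 1)).add hadd (hf 2)

lemma phi_sum {f : Fin 3 → ℝ → E → ℂ} (hadd : S_add) (hf : ∀ k, SmA (f k))
    {t : ℝ} (ht : t ∈ TI) (x : E) :
    Phi (fun t ξ => ∑ k, f k t ξ) t x = ∑ k, Phi (f k) t x :=
  phi_sum3 (fun k => (hf k).rap) ((hf 0).add hadd (hf 1)).rap ht x

/-- the time derivative of `a j`, rewritten -/
noncomputable def aD (a : Fin 3 → ℝ → E → ℂ) (j : Fin 3) (t : ℝ) (ξ : E) : ℂ :=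
  (∑ i, gj (gj (a j) i) i t ξ) + -((∑ k, conv (a k) (gj (a j) k) t ξ) + gj (phat a) j t ξ)

lemma conv_int {f g : ℝ → E → ℂ} (hf : Rap f) (hg : Rap g) {t : ℝ} (ht : t ∈ TI) (ξ : E) :
    Integrable (fun η => f t η * g t (ξ - η)) := by
  obtain ⟨C, hC⟩ := rap_bound hf
  obtain ⟨C', hC'⟩ := hg.2 0
  have h1 : Integrable (f t) := by
    refine (int4 C).mono' (hf.1 t ht).aestronglyMeasurable ?_
    filter_upwards with η
    exact hC t ht η
  apply h1.mul_bdd (c := C')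
  · exact ((hg.1 t ht).comp (measurable_const.sub measurable_id)).aestronglyMeasurable
  · filter_upwards with η
    have := hC' t ht (ξ - η)
    simpa using this

lemma conv_gj {a : Fin 3 → ℝ → E → ℂ} (ha : ∀ j, Rap (a j)) (hag : ∀ j k, Rap (gj (a j) k))
    (hdiv : ∀ t ∈ TI, ∀ ξ : E, ∑ j, ((ξ j : ℝ) : ℂ) * a j t ξ = 0) (j : Fin 3) {t : ℝ}
    (ht : t ∈ TI) (ξ : E) :
    ∑ k, conv (a k) (gj (a j) k) t ξ =
      ∑ k, 2 * (Real.pi : ℂ) * Complex.I * ((ξ k : ℝ) : ℂ) * conv (a k) (a j) t ξ := by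
  unfold conv
  rw [← integral_finsetSum]
  · simp_rw [← integral_const_mul]
    rw [← integral_finsetSum]
    · congr 1
      ext η
      have h1 : ∀ k, a k t η * gj (a j) k t (ξ - η) =
          2 * (Real.pi : ℂ) * Complex.I * ((ξ k : ℝ) : ℂ) * (a k t η * a j t (ξ - η)) -
            2 * (Real.pi : ℂ) * Complex.I * a j t (ξ - η) * (((η k : ℝ) : ℂ) * a k t η) := by
        intro k
        unfold PhiS.gj
        have : ((ξ - η) k : ℝ) = ξ k - η k := rfl
        rw [this]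
        push_cast
        ring
      simp_rw [h1]
      rw [Finset.sum_sub_distrib, ← Finset.mul_sum (s := Finset.univ) (f := fun k => ((η k : ℝ) : ℂ) * a k t η),
        hdiv t ht η, mul_zero, sub_zero]
    · intro k _
      exact (conv_int (ha k) (ha j) ht ξ).const_mul _
  · intro k _
    exact conv_int (ha k) (hag j k) ht ξ

lemma aD_eq {a : Fin 3 → ℝ → E → ℂ} (ha : ∀ j, Rap (a j)) (hag : ∀ j k, Rap (gj (a j) k))
    (hdiv : ∀ t ∈ TI, ∀ ξ : E, ∑ j, ((ξ j : ℝ) : ℂ) * a j t ξ = 0) (j : Fin 3) {t : ℝ}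
    (ht : t ∈ TI) (ξ : E) :
    -((4 * Real.pi ^ 2 * ‖ξ‖ ^ 2 : ℝ) : ℂ) * a j t ξ - nl a j t ξ = aD a j t ξ := by
  unfold aD
  rw [conv_gj ha hag hdiv j ht ξ]
  have hI : Complex.I ^ 2 = -1 := Complex.I_sq
  have hn : ‖ξ‖ ^ 2 = ∑ i, ξ i ^ 2 := by
    rw [EuclideanSpace.norm_eq, Real.sq_sqrt (Finset.sum_nonneg fun i _ => by positivity)]
    simp
  have e1 : ∑ i, gj (gj (a j) i) i t ξ = -((4 * Real.pi ^ 2 * ‖ξ‖ ^ 2 : ℝ) : ℂ) * a j t ξ := by
    rw [hn]
    unfold PhiS.gj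
    simp only [Fin.sum_univ_three]
    push_cast
    linear_combination (4 * (Real.pi : ℂ) ^ 2 * ((ξ 0 : ℂ) ^ 2 + (ξ 1 : ℂ) ^ 2 + (ξ 2 : ℂ) ^ 2) *
      a j t ξ) * hI
  rw [e1]
  have e2 : nl a j t ξ = (∑ k, 2 * (Real.pi : ℂ) * Complex.I * ((ξ k : ℝ) : ℂ) * conv (a k) (a j) t ξ) +
      gj (phat a) j t ξ := by
    unfold nl sy PhiS.gj phat
    have e3 : ∀ k, ∑ l, 2 * (Real.pi : ℂ) * Complex.I *
        ((if l = j then ((ξ k : ℝ) : ℂ) else 0) - ((ξ j * ξ k * ξ l / ‖ξ‖ ^ 2 : ℝ) : ℂ)) *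
          conv (a k) (a l) t ξ = 2 * (Real.pi : ℂ) * Complex.I * ((ξ k : ℝ) : ℂ) * conv (a k) (a j) t ξ -
          ∑ l, 2 * (Real.pi : ℂ) * Complex.I * ((ξ j : ℝ) : ℂ) *
            (((ξ k * ξ l / ‖ξ‖ ^ 2 : ℝ) : ℂ) * conv (a k) (a l) t ξ) := by
      intro k
      have e4 : ∀ l, 2 * (Real.pi : ℂ) * Complex.I *
          ((if l = j then ((ξ k : ℝ) : ℂ) else 0) - ((ξ j * ξ k * ξ l / ‖ξ‖ ^ 2 : ℝ) : ℂ)) *
            conv (a k) (a l) t ξ = (if l = j then 2 * (Real.pi : ℂ) * Complex.I * ((ξ k : ℝ) : ℂ) *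
              conv (a k) (a l) t ξ else 0) - 2 * (Real.pi : ℂ) * Complex.I * ((ξ j : ℝ) : ℂ) *
            (((ξ k * ξ l / ‖ξ‖ ^ 2 : ℝ) : ℂ) * conv (a k) (a l) t ξ) := by
        intro l
        by_cases h : l = j
        · rw [if_pos h, if_pos h]; push_cast; ring
        · rw [if_neg h, if_neg h]; push_cast; ring
      simp_rw [e4]
      rw [Finset.sum_sub_distrib, Finset.sum_ite_eq' Finset.univ j, if_pos (Finset.mem_univ _)]
    simp_rw [e3]
    rw [Finset.sum_sub_distrib, mul_neg, Finset.mul_sum, ← sub_eq_add_neg]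
    congr 1
    apply Finset.sum_congr rfl
    intro k _
    rw [Finset.mul_sum]
  rw [e2]
  ring

/-! ### norms -/

lemma enorm_sq_le {c : ℝ} {r : ℝ} (hr : 0 ≤ r) (h : c ^ 2 ≤ r) : ‖c‖ₑ ^ 2 ≤ ENNReal.ofReal r := by
  rw [← ofReal_norm, ← ENNReal.ofReal_pow (norm_nonneg _)]
  apply ENNReal.ofReal_le_ofReal
  rw [Real.norm_eq_abs, sq_abs]; exact h

lemma vel_norm (b : Fin 3 → ℝ → E → ℂ) (t : ℝ) (x : E) :
    ‖vel b t x‖ₑ ^ 2 ≤ ∑ j, ‖Phi (b j) t x‖ₑ ^ 2 := by
  have h1 : ‖vel b t x‖ ^ 2 ≤ ∑ j, ‖Phi (b j) t x‖ ^ 2 := by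
    rw [EuclideanSpace.norm_eq, Real.sq_sqrt (Finset.sum_nonneg fun i _ => by positivity)]
    apply Finset.sum_le_sum
    intro j _
    apply pow_le_pow_left₀ (norm_nonneg _)
    exact Complex.abs_re_le_norm _
  rw [← ofReal_norm, ← ENNReal.ofReal_pow (norm_nonneg _)]
  refine (ENNReal.ofReal_le_ofReal h1).trans ?_
  rw [ENNReal.ofReal_sum_of_nonneg (fun i _ => by positivity)]
  apply Finset.sum_le_sum
  intro j _
  rw [← ofReal_norm, ← ENNReal.ofReal_pow (norm_nonneg _)]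

lemma fderiv_norm (hdphi : S_dphi) {b : Fin 3 → ℝ → E → ℂ} (hb : ∀ j, Rap (b j)) {t : ℝ} (ht : t ∈ TI)
    (x : E) : ‖fderiv ℝ (vel b t) x‖ₑ ^ 2 ≤ ∑ j, ∑ k, ‖Phi (gj (b j) k) t x‖ₑ ^ 2 := by
  set S : ℝ := ∑ j, ∑ k, ‖Phi (gj (b j) k) t x‖ ^ 2 with hS
  have hS0 : 0 ≤ S := Finset.sum_nonneg fun j _ => Finset.sum_nonneg fun k _ => by positivity
  have h1 : ‖fderiv ℝ (vel b t) x‖ ≤ Real.sqrt S := by
    apply ContinuousLinearMap.opNorm_le_bound _ (Real.sqrt_nonneg _)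
    intro h
    rw [(fderiv_vel hdphi hb ht x).2]
    apply le_of_sq_le_sq _ (by positivity)
    rw [mul_pow, Real.sq_sqrt hS0, EuclideanSpace.norm_eq,
      Real.sq_sqrt (Finset.sum_nonneg fun i _ => by positivity), EuclideanSpace.norm_eq,
      Real.sq_sqrt (Finset.sum_nonneg fun i _ => by positivity), hS, Finset.sum_mul]
    apply Finset.sum_le_sum
    intro j _
    have h2 := Finset.sum_mul_sq_le_sq_mul_sq Finset.univ (fun k => h k)
      (fun k => (Phi (gj (b j) k) t x).re)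
    simp only [Real.norm_eq_abs, sq_abs]
    refine h2.trans ?_
    rw [mul_comm]
    apply mul_le_mul_of_nonneg_right _ (Finset.sum_nonneg fun i _ => by positivity)
    apply Finset.sum_le_sum
    intro k _
    rw [← sq_abs]
    exact pow_le_pow_left₀ (abs_nonneg _) (Complex.abs_re_le_norm _) 2
  have h2 : ‖fderiv ℝ (vel b t) x‖ ^ 2 ≤ S := by
    rw [← Real.sq_sqrt hS0]
    exact pow_le_pow_left₀ (norm_nonneg _) h1 2
  rw [← ofReal_norm, ← ENNReal.ofReal_pow (norm_nonneg _)]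
  refine (ENNReal.ofReal_le_ofReal h2).trans ?_
  rw [hS, ENNReal.ofReal_sum_of_nonneg (fun i _ => Finset.sum_nonneg fun k _ => by positivity)]
  apply Finset.sum_le_sum
  intro j _
  rw [ENNReal.ofReal_sum_of_nonneg (fun i _ => by positivity)]
  apply Finset.sum_le_sum
  intro k _
  rw [← ofReal_norm, ← ENNReal.ofReal_pow (norm_nonneg _)]

lemma phi_meas (hdphi : S_dphi) {f : ℝ → E → ℂ} (hf : Rap f) {t : ℝ} (ht : t ∈ TI) :
    Measurable (fun x => ‖Phi f t x‖ₑ ^ 2) := by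
  have : Continuous (Phi f t) := by
    rw [continuous_iff_continuousAt]
    intro x
    exact (hdphi.2 f hf t ht x).1.continuousAt
  exact this.measurable.enorm.pow_const 2

theorem main : S_mono → S_add → S_symb → S_conv → S_boot → S_dphi → S_phi → S_prod → S_real →
    S_l2 → S_reg := by
  intro hmono hadd hsymb hconv hboot hdphi hphi hprod hreal hl2 a ha
  obtain ⟨hb1, hb2⟩ := hboot a ha
  have hsa : ∀ j, SmA (a j) := fun j n => hb1 n j
  have hsp : SmA (phat a) := hb2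
  have hrg : ∀ j k, Rap (gj (a j) k) := fun j k => ((hsa j).gj hsymb k).rap
  have hvre : ∀ k, ∀ t ∈ TI, ∀ x, (Phi (a k) t x).im = 0 := fun k => hreal (a k) (ha.herm k)
  refine ⟨?_, ?_, ?_, ?_, ?_, ?_⟩
  · rw [contDiffOn_euclidean]
    intro j
    exact Complex.reCLM.contDiff.comp_contDiffOn (hphi (a j) (hsa j))
  · exact Complex.reCLM.contDiff.comp_contDiffOn (hphi (phat a) hsp)
  · intro s hs x
    have hs' : s ∈ TI := hs
    -- time derivative
    have hod : ∀ j, SmA (aD a j) := by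
      intro j
      apply SmA.add hadd
      · exact SmA.sum3 hadd fun i => ((hsa j).gj hsymb i).gj hsymb i
      · apply SmA.neg hsymb
        apply SmA.add hadd
        · exact SmA.sum3 hadd fun k => (hsa k).conv hconv ((hsa j).gj hsymb k)
        · exact hsp.gj hsymb j
    have hdt : ∀ j, HasDerivAt (fun τ => Phi (a j) τ x) (Phi (aD a j) s x) s := by
      intro j
      apply hdphi.1 (a j) (aD a j) (hsa j).rap (hod j).rap _ s hs' x
      intro t ht ξ
      have := ha.ode j t ht ξ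
      rwa [aD_eq (fun j => (hsa j).rap) hrg ha.divfree j ht ξ] at this
    have hdv : HasDerivAt (fun τ => vel a τ x) (WithLp.toLp 2 fun j => (Phi (aD a j) s x).re) s := by
      apply hasDerivAt_toLp (g := fun τ j => (Phi (a j) τ x).re)
      intro j
      exact Complex.reCLM.hasFDerivAt.comp_hasDerivAt s (hdt j)
    rw [hdv.deriv]
    have hfb : ∀ i, (fun y => fderiv ℝ (vel a s) y (EuclideanSpace.basisFun (Fin 3) ℝ i)) =
        vel (fun j => gj (a j) i) s := by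
      intro i; ext1 y
      exact fderiv_vel_basis hdphi (fun j => (hsa j).rap) hs' y i
    simp_rw [hfb]
    have hfb2 : ∀ i, fderiv ℝ (vel (fun j => gj (a j) i) s) x (EuclideanSpace.basisFun (Fin 3) ℝ i) =
        vel (fun j => gj (gj (a j) i) i) s x :=
      fun i => fderiv_vel_basis hdphi (fun j => hrg j i) hs' x i
    simp_rw [hfb2]
    rw [(fderiv_vel hdphi (fun j => (hsa j).rap) hs' x).2]
    ext j
    have hgrad : (gradient (pres a s) x) j = (Phi (gj (phat a) j) s x).re := by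
      rw [grad_coord]
      have h1 : HasFDerivAt (pres a s) (Complex.reCLM.comp (fderiv ℝ (Phi (phat a) s) x)) x :=
        Complex.reCLM.hasFDerivAt.comp x (hdphi.2 (phat a) hsp.rap s hs' x).1.hasFDerivAt
      rw [h1.fderiv, ContinuousLinearMap.comp_apply, (hdphi.2 (phat a) hsp.rap s hs' x).2]
      simp only [basis_coord, Complex.reCLM_apply]
      rw [Complex.re_sum]
      simp only [Complex.re_ofReal_mul, ite_mul, one_mul, zero_mul, Finset.sum_ite_eq',
        Finset.mem_univ, if_true]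
      rfl
    have hsum : (∑ i, vel (fun j => gj (gj (a j) i) i) s x) j =
        ∑ i, (Phi (gj (gj (a j) i) i) s x).re := by
      rw [WithLp.ofLp_sum, Finset.sum_apply]
      rfl
    show (Phi (aD a j) s x).re + (∑ k, (vel a s x) k * (Phi (gj (a j) k) s x).re) -
      (∑ i, vel (fun j => gj (gj (a j) i) i) s x) j + (gradient (pres a s) x) j = 0
    rw [hgrad, hsum]
    have hprodk : ∀ k, (vel a s x) k * (Phi (gj (a j) k) s x).re =
        (Phi (conv (a k) (gj (a j) k)) s x).re := by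
      intro k
      rw [hprod (a k) (gj (a j) k) (hsa k).rap (hrg j k) s hs' x, Complex.mul_re, hvre k s hs' x,
        zero_mul, sub_zero]
      rfl
    simp_rw [hprodk]
    have hcomb : Phi (aD a j) s x = (∑ i, Phi (gj (gj (a j) i) i) s x) +
        -((∑ k, Phi (conv (a k) (gj (a j) k)) s x) + Phi (gj (phat a) j) s x) := by
      have s1 : SmA fun t ξ => ∑ i, gj (gj (a j) i) i t ξ :=
        SmA.sum3 hadd fun i => ((hsa j).gj hsymb i).gj hsymb i
      have s2 : SmA fun t ξ => ∑ k, conv (a k) (gj (a j) k) t ξ :=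
        SmA.sum3 hadd fun k => (hsa k).conv hconv ((hsa j).gj hsymb k)
      have s3 : SmA (gj (phat a) j) := hsp.gj hsymb j
      have e1 := phi_add (f := fun t ξ => ∑ i, gj (gj (a j) i) i t ξ)
        (g := fun t ξ => -((∑ k, conv (a k) (gj (a j) k) t ξ) + gj (phat a) j t ξ)) s1.rap
        ((s2.add hadd s3).neg hsymb).rap hs' x
      have e2 := phi_neg (fun t ξ => (∑ k, conv (a k) (gj (a j) k) t ξ) + gj (phat a) j t ξ) s x
      have e3 := phi_add (f := fun t ξ => ∑ k, conv (a k) (gj (a j) k) t ξ)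
        (g := gj (phat a) j) s2.rap s3.rap hs' x
      have e4 := phi_sum hadd (f := fun i => gj (gj (a j) i) i)
        (fun i => ((hsa j).gj hsymb i).gj hsymb i) hs' x
      have e5 := phi_sum hadd (f := fun k => conv (a k) (gj (a j) k))
        (fun k => (hsa k).conv hconv ((hsa j).gj hsymb k)) hs' x
      rw [e2, e3, e4, e5] at e1
      exact e1
    rw [hcomb, Complex.add_re, Complex.neg_re, Complex.add_re, Complex.re_sum, Complex.re_sum]
    ring
  · intro s hs x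
    have hs' : s ∈ TI := hs
    rw [LinearMap.trace_eq_sum_inner _ (EuclideanSpace.basisFun (Fin 3) ℝ)]
    have h1 : ∀ i, ⟪(EuclideanSpace.basisFun (Fin 3) ℝ) i,
        (fderiv ℝ (vel a s) x).toLinearMap ((EuclideanSpace.basisFun (Fin 3) ℝ) i)⟫ =
        (Phi (gj (a i) i) s x).re := by
      intro i
      have e : (fderiv ℝ (vel a s) x).toLinearMap ((EuclideanSpace.basisFun (Fin 3) ℝ) i) =
          vel (fun j => gj (a j) i) s x := fderiv_vel_basis hdphi (fun j => (hsa j).rap) hs' x i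
      rw [e]
      simp only [PiLp.inner_apply, basis_coord]
      simp [vel]
    simp_rw [h1]
    rw [← Complex.re_sum, ← phi_sum hadd (f := fun i => gj (a i) i) (fun i => (hsa i).gj hsymb i) hs' x]
    have h2 : Phi (fun t ξ => ∑ i, gj (a i) i t ξ) s x = Phi (fun _ _ => 0) s x := by
      apply phi_congr
      intro ξ
      have := ha.divfree s hs' ξ
      unfold PhiS.gj
      simp_rw [mul_assoc (2 * (Real.pi : ℂ) * Complex.I)]
      rw [← Finset.mul_sum, this, mul_zero]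
    rw [h2, phi_eq]
    simp
  · choose K hK using fun j => hl2 (a j) (hsa j).rap
    refine ⟨∑ j, |K j|, fun s hs => ?_⟩
    calc ∫⁻ x, ‖vel a s x‖ₑ ^ 2 ≤ ∫⁻ x, ∑ j, ‖Phi (a j) s x‖ₑ ^ 2 := lintegral_mono fun x => vel_norm a s x
      _ = ∑ j, ∫⁻ x, ‖Phi (a j) s x‖ₑ ^ 2 :=
          lintegral_finsetSum _ fun j _ => phi_meas hdphi (hsa j).rap hs
      _ ≤ ∑ j, ENNReal.ofReal |K j| := Finset.sum_le_sum fun j _ =>
          (hK j s hs).trans (ENNReal.ofReal_le_ofReal (le_abs_self _))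
      _ = _ := (ENNReal.ofReal_sum_of_nonneg fun i _ => abs_nonneg _).symm
  · choose K hK using fun j k => hl2 (gj (a j) k) (hrg j k)
    calc (∫⁻ s in Set.Ioo (-1 : ℝ) 0, ∫⁻ x, ‖fderiv ℝ (vel a s) x‖ₑ ^ 2)
        ≤ ∫⁻ s in Set.Ioo (-1 : ℝ) 0, ∑ j, ∑ k, ENNReal.ofReal |K j k| := by
          apply setLIntegral_mono' measurableSet_Ioo
          intro s hs
          calc ∫⁻ x, ‖fderiv ℝ (vel a s) x‖ₑ ^ 2 ≤
                ∫⁻ x, ∑ j, ∑ k, ‖Phi (gj (a j) k) s x‖ₑ ^ 2 :=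
                lintegral_mono fun x => fderiv_norm hdphi (fun j => (hsa j).rap) hs x
            _ = ∑ j, ∑ k, ∫⁻ x, ‖Phi (gj (a j) k) s x‖ₑ ^ 2 := by
                rw [lintegral_finsetSum _ fun j _ =>
                  Finset.measurable_fun_sum _ fun k _ => phi_meas hdphi (hrg j k) hs]
                apply Finset.sum_congr rfl
                intro j _
                exact lintegral_finsetSum _ fun k _ => phi_meas hdphi (hrg j k) hs
            _ ≤ _ := Finset.sum_le_sum fun j _ => Finset.sum_le_sum fun k _ =>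
                (hK j k s hs).trans (ENNReal.ofReal_le_ofReal (le_abs_self _))
      _ < ⊤ := by
          rw [setLIntegral_const]
          apply ENNReal.mul_lt_top
          · exact ENNReal.sum_lt_top.2 fun j _ => ENNReal.sum_lt_top.2 fun k _ => ENNReal.ofReal_lt_top
          · rw [Real.volume_Ioo]; exact ENNReal.ofReal_lt_top

end Pool.Agent.W688.QR.Reg
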